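import Pool.Agent.H.MP_901ac1_lc.A

set_option autoImplicit false

namespace Pool.Agent.Results.MP_901ac1_lc.Full

open Pool.Agent.Lib.CX Pool.Agent.H.MP_901ac1_lc Function

/-- the triples `(t, u, v)` with `(u, v) ∈ E t`, and the pairs (vertex, token type) -/
abbrev Pos := List (ℕ × ℕ × ℕ) × List (ℕ × ℕ)

/-- there are no loops and each vertex holds at most one token -/
def Valid (a : Pos) : Prop := (∀ e ∈ a.1, e.2.1 ≠ e.2.2) ∧ (a.2.map Prod.fst).Nodup

/-- only the types `0` and `1` occur -/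
def Two (a : Pos) : Prop := (∀ e ∈ a.1, e.1 < 2) ∧ ∀ x ∈ a.2, x.2 < 2

/-- a token of type `t` slides from `u` to `v` and replaces the token on `v`, if any -/
def Move (E : List (ℕ × ℕ × ℕ)) (p q : ℕ → Option ℕ) : Prop :=
  ∃ t u v, (t, u, v) ∈ E ∧ p u = some t ∧ q = update (update p u none) v (some t)

lemma move_eq (E : List (ℕ × ℕ × ℕ)) : Move E = MoveF true E := by
  ext p q
  simp [Move, MoveF]

abbrev K := Option (ℕ × Cell)

lemma valid (a : List K × List (Act K)) (h : a.1.Nodup) :
    Valid (tokName (edges a.1 a.2, init a.1)) ∧ Two (tokName (edges a.1 a.2, init a.1)) := by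
  have : ∀ e ∈ edges a.1 a.2, e.1 < 2 ∧ e.2.1 ≠ e.2.2 := fun e he => by
    rcases ed_iff.1 he with ⟨x, y, h, h'⟩ | ⟨b, -, h⟩ | ⟨b, -, h⟩
    · have := mem_fx h; grind
    · grind [mem_out]
    · grind [wit_k]
  refine ⟨⟨List.forall_mem_map.2 fun e he => by simpa using (this e he).2, ?_⟩,
    List.forall_mem_map.2 fun e he => (this e he).1, List.forall_mem_map.2 fun e he => ?_⟩
  · simp only [tokName, init, List.map_map, List.map_cons, List.nodup_cons]
    exact ⟨by simp, by simp, h.map fun x y => by simp⟩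
  · simp only [init, List.mem_cons, List.mem_map] at he
    grind

theorem result (S : Pos → Prop) (h2 : ∀ a, Valid a → Two a → S a) :
    (EXPComplete fun a : {a : Pos // S a} => Win (Move a.1.1) (place a.1.2)) ∧
    (InEXP fun a : {a : Pos // S a} => Lose (Move a.1.1) (place a.1.2)) := by
  simp only [move_eq]
  refine ⟨⟨(tok_mem true).1.red ⟨fun a => a.1, by fun_prop, fun _ => .rfl⟩,
    ga_hard'.red ⟨fun a => ⟨_, h2 _ (valid _ a.2.1).1 (valid _ a.2.1).2⟩, PT.subtype (red_pt.comp PT.id.val) _,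
      fun a => .trans ?_ (tokName_win ..).symm⟩⟩,
    (tok_mem true).2.red ⟨fun a => a.1, by fun_prop, fun _ => .rfl⟩⟩
  exact ⟨fun h => win_of a.2.2 h _ (rep _), fun h => by_contra fun h' =>
    not_win_of a.2.2 h' (by simp +contextual) (rep _) h⟩

end Pool.Agent.Results.MP_901ac1_lc.Full
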